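import Mathlib
import Pool.Agent.H17.Etern

namespace Pool.Agent.Results.MP_18a4fa_co.LongDefence

open Pool.Agent.H17.Etern

/-- One defender response: every guard stays or crosses one edge, no two guards end on the
same vertex, and `D` is the resulting set of occupied vertices. -/
def Move {V : Type} [DecidableEq V] (G : SimpleGraph V) (C D : Finset V) : Prop :=
  ∃ f : V → V, Set.InjOn f (C : Set V) ∧ (∀ v ∈ C, f v = v ∨ G.Adj v (f v)) ∧ D = C.image f

/-- The defender wins from `C`: a strategy `σ`, giving the configuration after each finite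
history of attacks (latest attack first), answers every attack forever. -/
def Eternal {V : Type} [DecidableEq V] (G : SimpleGraph V) (C : Finset V) : Prop :=
  ∃ σ : List V → Finset V, σ [] = C ∧
    ∀ (l : List V) (a : V), Move G (σ l) (σ (a :: l)) ∧ a ∈ σ (a :: l)

/-- The defender, starting from `C`, has a strategy answering each of the first `k` attacks,
whatever the attacker plays. -/
def Survives {V : Type} [DecidableEq V] (G : SimpleGraph V) (k : ℕ) (C : Finset V) : Prop :=
  ∃ σ : List V → Finset V, σ [] = C ∧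
    ∀ (l : List V) (a : V), l.length < k → Move G (σ l) (σ (a :: l)) ∧ a ∈ σ (a :: l)

/-- The m-eternal domination number. -/
noncomputable def gammaM {V : Type} [DecidableEq V] (G : SimpleGraph V) : ℕ :=
  sInf {k : ℕ | ∃ C : Finset V, C.card = k ∧ Eternal G C}

def G16 : SimpleGraph (Fin 16) := SimpleGraph.fromRel fun x y => adj x.val y.val = true

theorem nb_iff (x y : Fin 16) : nb x.val y.val = true ↔ (y = x ∨ G16.Adj x y) := by
  have h := all16_spec _ (all16_spec _ chkS x) y
  simp only [Bool.and_eq_true, beq_iff_eq] at h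
  unfold nb G16
  rw [SimpleGraph.fromRel_adj, Bool.or_eq_true, Nat.beq_eq, ← h.1]
  constructor
  · rintro (h1 | h1)
    · exact Or.inl (Fin.ext h1.symm)
    · by_cases hxy : x = y
      · exact Or.inl hxy.symm
      · exact Or.inr ⟨hxy, Or.inl h1⟩
  · rintro (h1 | ⟨_, h1 | h1⟩)
    · exact Or.inl (by rw [h1])
    · exact Or.inr h1
    · exact Or.inr h1

theorem attack (x y z : Fin 16) : ∃ a : Fin 16, ∀ x' y' z' : Fin 16,
    nb x.val x'.val = true → nb y.val y'.val = true → nb z.val z'.val = true →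
    (a = x' ∨ a = y' ∨ a = z') → rk x'.val y'.val z'.val < rk x.val y.val z.val := by
  have h := all16_spec _ (all16_spec _ (all16_spec _ chkA x) y) z
  refine ⟨⟨atk x.val y.val z.val, Nat.mod_lt _ (by norm_num)⟩, ?_⟩
  intro x' y' z' hx hy hz ha
  unfold chkA1 at h
  simp only [Bool.or_eq_true] at h
  rcases h with h | h
  · simp only [Bool.and_eq_true, Bool.not_eq_true'] at h
    rcases ha with ha | ha | ha
    · rw [← ha] at hx; simp [h.1.1] at hx
    · rw [← ha] at hy; simp [h.1.2] at hy
    · rw [← ha] at hz; simp [h.2] at hz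
  · have h1 := all16_spec _ h x'
    simp only [hx, Bool.not_true, Bool.false_or] at h1
    have h2 := all16_spec _ h1 y'
    simp only [hy, Bool.not_true, Bool.false_or] at h2
    have h3 := all16_spec _ h2 z'
    simp only [hz, Bool.not_true, Bool.false_or] at h3
    have h4 : (Nat.beq (atk x.val y.val z.val) x'.val || Nat.beq (atk x.val y.val z.val) y'.val ||
        Nat.beq (atk x.val y.val z.val) z'.val) = true := by
      simp only [Bool.or_eq_true, Nat.beq_eq]
      rcases ha with ha | ha | ha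
      · exact Or.inl (Or.inl (congrArg Fin.val ha))
      · exact Or.inl (Or.inr (congrArg Fin.val ha))
      · exact Or.inr (congrArg Fin.val ha)
    rw [h4] at h3
    simpa [Nat.blt_eq] using h3

theorem not_eternal (C : Finset (Fin 16)) (hC : C.card ≤ 3) : ¬ Eternal G16 C := by
  rintro ⟨σ, h0, hσ⟩
  have key : ∀ (k : ℕ) (l : List (Fin 16)) (x y z : Fin 16),
      σ l ⊆ {x, y, z} → k ≤ rk x.val y.val z.val := by
    intro k
    induction k with
    | zero => intros; exact Nat.zero_le _
    | succ k ih =>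
      intro l x y z hsub
      obtain ⟨a, ha⟩ := attack x y z
      obtain ⟨⟨f, _, hf, himg⟩, hmem⟩ := hσ l a
      let g : Fin 16 → Fin 16 := fun v => if v ∈ σ l then f v else v
      have hg : ∀ v, nb v.val (g v).val = true := by
        intro v
        rw [nb_iff]
        by_cases hv : v ∈ σ l
        · simp only [g, hv, if_true]; exact hf v hv
        · simp only [g, hv, if_false]; exact Or.inl trivial
      have hsub' : σ (a :: l) ⊆ {g x, g y, g z} := by
        rw [himg]
        intro w hw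
        obtain ⟨v, hv, rfl⟩ := Finset.mem_image.mp hw
        have hgv : f v = g v := by simp only [g, hv, if_true]
        have := hsub hv
        simp only [Finset.mem_insert, Finset.mem_singleton] at this ⊢
        rcases this with h | h | h
        · exact Or.inl (by rw [hgv, h])
        · exact Or.inr (Or.inl (by rw [hgv, h]))
        · exact Or.inr (Or.inr (by rw [hgv, h]))
      have h1 := ih (a :: l) _ _ _ hsub'
      have h2 : a = g x ∨ a = g y ∨ a = g z := by
        have := hsub' hmem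
        simpa only [Finset.mem_insert, Finset.mem_singleton] using this
      have h3 := ha _ _ _ (hg x) (hg y) (hg z) h2
      omega
  obtain ⟨D, hCD, hD⟩ := Finset.exists_superset_card_eq hC (by simp)
  obtain ⟨x, y, z, -, -, -, rfl⟩ := Finset.card_eq_three.mp hD
  have h1 := key 32 [] x y z (by rw [h0]; exact hCD)
  have h2 : rk x.val y.val z.val < 32 := Nat.mod_lt _ (by norm_num)
  omega

theorem gamma_ge : 4 ≤ gammaM G16 := by
  unfold gammaM
  have hne : ({k : ℕ | ∃ C : Finset (Fin 16), C.card = k ∧ Eternal G16 C}).Nonempty := by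
    refine ⟨_, Finset.univ, rfl, fun _ => Finset.univ, rfl, fun l a => ⟨⟨id, ?_, ?_, ?_⟩, ?_⟩⟩
    · exact Function.injective_id.injOn
    · intro v _; exact Or.inl rfl
    · simp
    · exact Finset.mem_univ _
  obtain ⟨C, hC, hE⟩ := Nat.sInf_mem hne
  by_contra hlt
  exact not_eternal C (by omega) hE

def nxt (s : Fin 16 × Fin 16 × Fin 16) (a : Fin 16) : Fin 16 × Fin 16 × Fin 16 :=
  (⟨wt s.1.val s.2.1.val s.2.2.val a.val / 256 % 16, Nat.mod_lt _ (by norm_num)⟩,
   ⟨wt s.1.val s.2.1.val s.2.2.val a.val / 16 % 16, Nat.mod_lt _ (by norm_num)⟩,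
   ⟨wt s.1.val s.2.1.val s.2.2.val a.val % 16, Nat.mod_lt _ (by norm_num)⟩)

theorem nxt_spec (s : Fin 16 × Fin 16 × Fin 16) (a : Fin 16)
    (h : 0 < rk s.1.val s.2.1.val s.2.2.val) :
    nb s.1.val (nxt s a).1.val = true ∧ nb s.2.1.val (nxt s a).2.1.val = true ∧
    nb s.2.2.val (nxt s a).2.2.val = true ∧ (nxt s a).1 ≠ (nxt s a).2.1 ∧
    (nxt s a).1 ≠ (nxt s a).2.2 ∧ (nxt s a).2.1 ≠ (nxt s a).2.2 ∧
    (a = (nxt s a).1 ∨ a = (nxt s a).2.1 ∨ a = (nxt s a).2.2) ∧
    rk s.1.val s.2.1.val s.2.2.val ≤ rk (nxt s a).1.val (nxt s a).2.1.val (nxt s a).2.2.val + 1 := by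
  have h1 := all16_spec _ (all16_spec _ (all16_spec _ chkB s.1) s.2.1) s.2.2
  simp only [Bool.or_eq_true, Nat.beq_eq] at h1
  rcases h1 with h1 | h1
  · omega
  have h2 := all16_spec _ h1 a
  unfold chkB1 at h2
  simp only [Bool.and_eq_true, Bool.or_eq_true, Nat.beq_eq, Bool.not_eq_true',
    Nat.ble_eq] at h2
  obtain ⟨⟨⟨⟨⟨⟨⟨e1, e2⟩, e3⟩, e4⟩, e5⟩, e6⟩, e7⟩, e8⟩ := h2
  refine ⟨e1, e2, e3, ?_, ?_, ?_, ?_, e8⟩
  · intro hh; exact Nat.ne_of_beq_eq_false e4 (congrArg Fin.val hh)
  · intro hh; exact Nat.ne_of_beq_eq_false e5 (congrArg Fin.val hh)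
  · intro hh; exact Nat.ne_of_beq_eq_false e6 (congrArg Fin.val hh)
  · rcases e7 with (e | e) | e
    · exact Or.inl (Fin.ext e)
    · exact Or.inr (Or.inl (Fin.ext e))
    · exact Or.inr (Or.inr (Fin.ext e))

def st : List (Fin 16) → Fin 16 × Fin 16 × Fin 16
  | [] => (0, 2, 9)
  | a :: l => nxt (st l) a

theorem rk0 : rk 0 2 9 = 17 := by decide +kernel

theorem st_inv (l : List (Fin 16)) (hl : l.length ≤ 17) :
    (st l).1 ≠ (st l).2.1 ∧ (st l).1 ≠ (st l).2.2 ∧ (st l).2.1 ≠ (st l).2.2 ∧
    17 ≤ rk (st l).1.val (st l).2.1.val (st l).2.2.val + l.length := by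
  induction l with
  | nil =>
    refine ⟨by decide, by decide, by decide, ?_⟩
    show 17 ≤ rk 0 2 9 + 0
    rw [rk0]
  | cons a l ih =>
    simp only [List.length_cons] at hl ⊢
    obtain ⟨-, -, -, h4⟩ := ih (by omega)
    obtain ⟨-, -, -, e4, e5, e6, -, e8⟩ := nxt_spec (st l) a (by omega)
    refine ⟨e4, e5, e6, ?_⟩
    show 17 ≤ rk (nxt (st l) a).1.val (nxt (st l) a).2.1.val (nxt (st l) a).2.2.val + (l.length + 1)
    omega

theorem move3 (x y z x' y' z' : Fin 16) (h1 : x ≠ y) (h2 : x ≠ z) (h3 : y ≠ z)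
    (e1 : x' ≠ y') (e2 : x' ≠ z') (e3 : y' ≠ z')
    (n1 : nb x.val x'.val = true) (n2 : nb y.val y'.val = true) (n3 : nb z.val z'.val = true) :
    Move G16 {x, y, z} {x', y', z'} := by
  let f : Fin 16 → Fin 16 := fun v => if v = x then x' else if v = y then y' else z'
  have fx : f x = x' := by simp [f]
  have fy : f y = y' := by simp [f, h1.symm]
  have fz : f z = z' := by simp [f, h2.symm, h3.symm]
  refine ⟨f, ?_, ?_, ?_⟩
  · intro u hu v hv huv
    simp only [Finset.coe_insert, Finset.coe_singleton, Set.mem_insert_iff,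
      Set.mem_singleton_iff] at hu hv
    rcases hu with rfl | rfl | rfl <;> rcases hv with rfl | rfl | rfl <;>
      first
        | rfl
        | (exfalso; rw [fx, fy] at huv; exact e1 huv)
        | (exfalso; rw [fx, fz] at huv; exact e2 huv)
        | (exfalso; rw [fy, fz] at huv; exact e3 huv)
        | (exfalso; rw [fx, fy] at huv; exact e1 huv.symm)
        | (exfalso; rw [fx, fz] at huv; exact e2 huv.symm)
        | (exfalso; rw [fy, fz] at huv; exact e3 huv.symm)
  · intro v hv
    simp only [Finset.mem_insert, Finset.mem_singleton] at hv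
    rcases hv with rfl | rfl | rfl
    · rw [fx]; exact (nb_iff _ _).mp n1
    · rw [fy]; exact (nb_iff _ _).mp n2
    · rw [fz]; exact (nb_iff _ _).mp n3
  · simp only [Finset.image_insert, Finset.image_singleton, fx, fy, fz]

theorem surv : Survives G16 17 {0, 2, 9} := by
  refine ⟨fun l => {(st l).1, (st l).2.1, (st l).2.2}, rfl, ?_⟩
  intro l a hl
  obtain ⟨h1, h2, h3, h4⟩ := st_inv l (by omega)
  obtain ⟨n1, n2, n3, e4, e5, e6, e7, -⟩ := nxt_spec (st l) a (by omega)
  refine ⟨move3 _ _ _ _ _ _ h1 h2 h3 e4 e5 e6 n1 n2 n3, ?_⟩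
  simp only [Finset.mem_insert, Finset.mem_singleton]
  exact e7

theorem result : ∃ (n : ℕ) (G : SimpleGraph (Fin n)) (C : Finset (Fin n)),
    C.card + 1 ≤ gammaM G ∧ Survives G (n + 1) C := by
  refine ⟨16, G16, {0, 2, 9}, ?_, surv⟩
  have h : ({0, 2, 9} : Finset (Fin 16)).card = 3 := by decide
  rw [h]
  exact gamma_ge

end Pool.Agent.Results.MP_18a4fa_co.LongDefence
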